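import Pool.Agent.Lib.MP_38cb75_co_P.Match

/-!
# A unique vertex cover of size `b`
-/

set_option autoImplicit false
set_option linter.unusedSectionVars false

namespace Pool.MP_38cb75_co.P2

open Pool.MP_38cb75_co.GT

variable {α : Type*} [DecidableEq α]

/-- `K` is a graph on `V`. -/
def Gr (V : Finset α) (K : Finset (Finset α)) : Prop := ∀ e ∈ K, e ⊆ V ∧ e.card = 2

/-- The neighbours of `x` outside `D`. -/
def Nb (V : Finset α) (K : Finset (Finset α)) (D : Finset α) (x : α) : Finset α :=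
  (V \ D).filter (fun y => {x, y} ∈ K)

theorem mem_Nb {V : Finset α} {K : Finset (Finset α)} {D : Finset α} {x y : α} :
    y ∈ Nb V K D x ↔ (y ∈ V ∧ y ∉ D) ∧ {x, y} ∈ K := by
  unfold Nb
  rw [Finset.mem_filter, Finset.mem_sdiff]

theorem Gr.other {V : Finset α} {K : Finset (Finset α)} (hK : Gr V K) {e : Finset α} (he : e ∈ K) {x : α}
    (hx : x ∈ e) : ∃ y, y ≠ x ∧ e = {x, y} ∧ y ∈ V := by
  obtain ⟨h1, h2⟩ := hK e he
  obtain ⟨a, b, hab, rfl⟩ := Finset.card_eq_two.1 h2
  rw [Finset.mem_insert, Finset.mem_singleton] at hx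
  rcases hx with rfl | rfl
  · exact ⟨b, hab.symm, rfl, h1 (by simp)⟩
  · exact ⟨a, hab, Finset.pair_comm _ _, h1 (by simp)⟩

section unique

variable {V : Finset α} {K : Finset (Finset α)} {b : ℕ} {D : Finset α}

theorem two_le_Nb (hK : Gr V K) (hD : D ∈ fam V K b) (hu : ∀ D' ∈ fam V K b, D' = D) (hg : b + 1 ≤ V.card)
    {x : α} (hx : x ∈ D) : 2 ≤ (Nb V K D x).card := by
  by_contra hlt
  have h1 : (Nb V K D x).card ≤ 1 := by omega
  obtain ⟨hDV, hDb, hDh⟩ := hD
  obtain ⟨v, hv, hvN⟩ : ∃ v ∈ V \ D, Nb V K D x ⊆ {v} := by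
    rcases (Nb V K D x).eq_empty_or_nonempty with h0 | ⟨v, hv⟩
    · have h2 : (V \ D).Nonempty := by
        rw [← Finset.card_pos, Finset.card_sdiff_of_subset hDV]
        omega
      obtain ⟨v, hv⟩ := h2
      exact ⟨v, hv, by rw [h0]; exact Finset.empty_subset _⟩
    · refine ⟨v, (Finset.mem_filter.1 hv).1, fun y hy => ?_⟩
      rw [Finset.mem_singleton]
      exact Finset.card_le_one.1 h1 y hy v hv
  rw [Finset.mem_sdiff] at hv
  have hve : v ∉ D.erase x := fun h => hv.2 (Finset.mem_of_mem_erase h)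
  have h3 : insert v (D.erase x) ∈ fam V K b := by
    refine ⟨Finset.insert_subset hv.1 ((Finset.erase_subset _ _).trans hDV), ?_, fun e he => ?_⟩
    · rw [Finset.card_insert_of_notMem hve, Finset.card_erase_of_mem hx]
      have : 0 < D.card := Finset.card_pos.2 ⟨x, hx⟩
      omega
    · obtain ⟨z, hz⟩ := hDh e he
      rw [Finset.mem_inter] at hz
      by_cases hzx : z = x
      · subst hzx
        obtain ⟨y, hy1, hy2, hy3⟩ := hK.other he hz.1
        by_cases hyD : y ∈ D
        · exact ⟨y, Finset.mem_inter.2 ⟨by rw [hy2]; simp, Finset.mem_insert_of_mem (Finset.mem_erase.2 ⟨hy1, hyD⟩)⟩⟩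
        · have h4 : y ∈ Nb V K D z := mem_Nb.2 ⟨⟨hy3, hyD⟩, by rw [← hy2]; exact he⟩
          have h5 := Finset.mem_singleton.1 (hvN h4)
          subst h5
          exact ⟨y, Finset.mem_inter.2 ⟨by rw [hy2]; simp, Finset.mem_insert_self _ _⟩⟩
      · exact ⟨z, Finset.mem_inter.2 ⟨hz.1, Finset.mem_insert_of_mem (Finset.mem_erase.2 ⟨hzx, hz.2⟩)⟩⟩
  have h6 := hu _ h3
  exact hv.2 (h6 ▸ Finset.mem_insert_self _ _)

/-- The edges which leave `D`. -/
theorem edges_out (hK : Gr V K) (hD : D ∈ fam V K b) (hu : ∀ D' ∈ fam V K b, D' = D) (hg : b + 1 ≤ V.card) :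
    2 * b + (K.filter (fun e => e ⊆ D)).card ≤ K.card := by
  have h2 := fun {x : α} (hx : x ∈ D) => two_le_Nb hK hD hu hg hx
  obtain ⟨hDV, hDb, hDh⟩ := hD
  have h3 : (D.biUnion fun x => (Nb V K D x).image fun y => ({x, y} : Finset α)).card =
      ∑ x ∈ D, (Nb V K D x).card := by
    rw [Finset.card_biUnion]
    · refine Finset.sum_congr rfl fun x hx => ?_
      rw [Finset.card_image_of_injOn]
      intro y hy y' hy' hyy
      have h4 : y ∈ ({x, y'} : Finset α) := by
        have h5 : ({x, y} : Finset α) = {x, y'} := hyy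
        rw [← h5]
        simp
      rw [Finset.mem_insert, Finset.mem_singleton] at h4
      rcases h4 with h4 | h4
      · exact absurd (h4 ▸ hx) (mem_Nb.1 hy).1.2
      · exact h4
    · intro x hx x' hx' hne
      rw [Function.onFun, Finset.disjoint_left]
      rintro e he he'
      obtain ⟨y, hy, rfl⟩ := Finset.mem_image.1 he
      obtain ⟨y', hy', h5⟩ := Finset.mem_image.1 he'
      have h6 : x ∈ ({x', y'} : Finset α) := by rw [h5]; simp
      rw [Finset.mem_insert, Finset.mem_singleton] at h6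
      rcases h6 with h6 | h6
      · exact hne h6
      · exact (mem_Nb.1 hy').1.2 (h6 ▸ hx)
  have h4 : 2 * b ≤ ∑ x ∈ D, (Nb V K D x).card := by
    rw [← hDb, mul_comm, ← smul_eq_mul, ← Finset.sum_const]
    exact Finset.sum_le_sum fun x hx => h2 hx
  have h5 : Disjoint (D.biUnion fun x => (Nb V K D x).image fun y => ({x, y} : Finset α))
      (K.filter (fun e => e ⊆ D)) := by
    rw [Finset.disjoint_left]
    intro e he he'
    obtain ⟨x, hx, hex⟩ := Finset.mem_biUnion.1 he
    obtain ⟨y, hy, rfl⟩ := Finset.mem_image.1 hex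
    exact (mem_Nb.1 hy).1.2 ((Finset.mem_filter.1 he').2 (by simp))
  have h6 : (D.biUnion fun x => (Nb V K D x).image fun y => ({x, y} : Finset α)) ∪
      (K.filter (fun e => e ⊆ D)) ⊆ K := by
    refine Finset.union_subset ?_ (Finset.filter_subset _ _)
    intro e he
    obtain ⟨x, hx, hex⟩ := Finset.mem_biUnion.1 he
    obtain ⟨y, hy, rfl⟩ := Finset.mem_image.1 hex
    exact (mem_Nb.1 hy).2
  have h7 := Finset.card_le_card h6
  rw [Finset.card_union_of_disjoint h5, h3] at h7
  omega

/-- The exchange argument. -/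
theorem exchange (hK : Gr V K) (hD : D ∈ fam V K b) (hu : ∀ D' ∈ fam V K b, D' = D) (hg : b + 1 ≤ V.card)
    {A : Finset α} (hA : A ⊆ D) (hne : A.Nonempty) :
    A.card + 1 ≤ (A.biUnion (Nb V K D)).card + (K.filter (fun e => e ⊆ D)).card := by
  by_contra hlt
  have h2 := fun {x : α} (hx : x ∈ D) => two_le_Nb hK hD hu hg hx
  obtain ⟨hDV, hDb, hDh⟩ := hD
  have hch : ∀ e : Finset α, ∃ c, e ∈ K → c ∈ e := by
    intro e
    by_cases he : e ∈ K
    · have h3 := (hK e he).2
      have h4 : e.Nonempty := Finset.card_pos.1 (by omega)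
      exact ⟨h4.choose, fun _ => h4.choose_spec⟩
    · obtain ⟨x, _⟩ := hne
      exact ⟨x, fun h => absurd h he⟩
  choose c hc using hch
  set KA := K.filter (fun e => e ⊆ A) with hKA
  set D2 := (D \ A) ∪ (A.biUnion (Nb V K D)) ∪ KA.image c with hD2
  have hKAD : KA.card ≤ (K.filter (fun e => e ⊆ D)).card :=
    Finset.card_le_card fun e he => Finset.mem_filter.2 ⟨(Finset.mem_filter.1 he).1, (Finset.mem_filter.1 he).2.trans hA⟩
  have hc1 : D2.card ≤ b := by
    have h3 := Finset.card_union_le ((D \ A) ∪ (A.biUnion (Nb V K D))) (KA.image c)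
    have h4 := Finset.card_union_le (D \ A) (A.biUnion (Nb V K D))
    have h5 := Finset.card_image_le (s := KA) (f := c)
    have h6 := Finset.card_sdiff_of_subset hA
    have h7 := Finset.card_le_card hA
    rw [← hD2] at h3
    omega
  have hc2 : D2 ⊆ V := by
    refine Finset.union_subset (Finset.union_subset (Finset.sdiff_subset.trans hDV) ?_) ?_
    · intro y hy
      obtain ⟨x, _, hxy⟩ := Finset.mem_biUnion.1 hy
      exact (mem_Nb.1 hxy).1.1
    · intro y hy
      obtain ⟨e, he, rfl⟩ := Finset.mem_image.1 hy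
      have he' := Finset.mem_filter.1 he
      exact hDV (hA (he'.2 (hc e he'.1)))
  have hc3 : Hits K D2 := by
    intro e he
    obtain ⟨x, hx⟩ := hDh e he
    rw [Finset.mem_inter] at hx
    by_cases hxA : x ∈ A
    · obtain ⟨y, hy1, hy2, hy3⟩ := hK.other he hx.1
      by_cases hyD : y ∈ D
      · by_cases hyA : y ∈ A
        · have heA : e ∈ KA := by
            refine Finset.mem_filter.2 ⟨he, ?_⟩
            rw [hy2]
            exact Finset.insert_subset hxA (Finset.singleton_subset_iff.2 hyA)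
          exact ⟨c e, Finset.mem_inter.2 ⟨hc e he, Finset.mem_union_right _ (Finset.mem_image_of_mem c heA)⟩⟩
        · exact ⟨y, Finset.mem_inter.2 ⟨by rw [hy2]; simp, Finset.mem_union_left _
            (Finset.mem_union_left _ (Finset.mem_sdiff.2 ⟨hyD, hyA⟩))⟩⟩
      · refine ⟨y, Finset.mem_inter.2 ⟨by rw [hy2]; simp, Finset.mem_union_left _ (Finset.mem_union_right _
          (Finset.mem_biUnion.2 ⟨x, hxA, mem_Nb.2 ⟨⟨hy3, hyD⟩, by rw [← hy2]; exact he⟩⟩))⟩⟩
    · exact ⟨x, Finset.mem_inter.2 ⟨hx.1, Finset.mem_union_left _ (Finset.mem_union_left _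
        (Finset.mem_sdiff.2 ⟨hx.2, hxA⟩))⟩⟩
  obtain ⟨D3, h3, h4, h5⟩ := Finset.exists_subsuperset_card_eq hc2 hc1 (by omega : b ≤ V.card)
  have h6 : D3 = D := by
    refine hu D3 ⟨h4, h5, fun e he => ?_⟩
    exact (hc3 e he).mono (Finset.inter_subset_inter_left h3)
  obtain ⟨x, hx⟩ := hne
  have h7 := h2 (hA hx)
  have h8 : (Nb V K D x).Nonempty := Finset.card_pos.1 (by omega)
  obtain ⟨y, hy⟩ := h8
  have h9 : y ∈ D3 := h3 (Finset.mem_union_left _ (Finset.mem_union_right _ (Finset.mem_biUnion.2 ⟨x, hx, hy⟩)))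
  rw [h6] at h9
  exact (mem_Nb.1 hy).1.2 h9

/-- Hall's theorem with deficiency. -/
theorem hall (hD : D ⊆ V) {δ : ℕ} (h : ∀ A ⊆ D, A.card ≤ (A.biUnion (Nb V K D)).card + δ) :
    D.card ≤ nu K + δ := by
  classical
  let t : {x // x ∈ D} → Finset (α ⊕ Fin δ) := fun x => (Nb V K D x.1).disjSum Finset.univ
  have h1 : ∀ s : Finset {x // x ∈ D}, s.card ≤ (s.biUnion t).card := by
    intro s
    rcases s.eq_empty_or_nonempty with rfl | ⟨x0, hx0⟩
    · simp
    have h2 : (s.image Subtype.val) ⊆ D := by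
      intro x hx
      obtain ⟨y, _, rfl⟩ := Finset.mem_image.1 hx
      exact y.2
    have h3 := h _ h2
    rw [Finset.card_image_of_injective _ Subtype.val_injective] at h3
    have h4 : (((s.image Subtype.val).biUnion (Nb V K D)).disjSum (Finset.univ : Finset (Fin δ))) ⊆ s.biUnion t := by
      intro z hz
      rw [Finset.mem_disjSum] at hz
      rcases hz with ⟨y, hy, rfl⟩ | ⟨j, _, rfl⟩
      · obtain ⟨x, hx, hxy⟩ := Finset.mem_biUnion.1 hy
        obtain ⟨x', hx', rfl⟩ := Finset.mem_image.1 hx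
        exact Finset.mem_biUnion.2 ⟨x', hx', Finset.inl_mem_disjSum.2 hxy⟩
      · exact Finset.mem_biUnion.2 ⟨x0, hx0, Finset.inr_mem_disjSum.2 (Finset.mem_univ _)⟩
    have h5 := Finset.card_le_card h4
    rw [Finset.card_disjSum, Finset.card_univ, Fintype.card_fin] at h5
    omega
  obtain ⟨f, hf, hft⟩ := (Finset.all_card_le_biUnion_card_iff_exists_injective t).1 h1
  let g : {x // x ∈ D} → α := fun x => Sum.elim id (fun _ => x.1) (f x)
  let P := D.attach.filter (fun x => (f x).isLeft = true)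
  have hP : ∀ x ∈ P, f x = Sum.inl (g x) ∧ g x ∈ Nb V K D x.1 := by
    intro x hx
    have h2 := (Finset.mem_filter.1 hx).2
    obtain ⟨y, hy⟩ := Sum.isLeft_iff.1 h2
    have h3 : g x = y := by
      simp only [g, hy, Sum.elim_inl, id]
    have h4 := hft x
    rw [hy] at h4
    rw [h3]
    exact ⟨hy, Finset.inl_mem_disjSum.1 h4⟩
  have hdis : ∀ x ∈ P, ∀ x' ∈ P, x ≠ x' → Disjoint ({x.1, g x} : Finset α) {x'.1, g x'} := by
    intro x hx x' hx' hne
    obtain ⟨h2, h3⟩ := hP x hx
    obtain ⟨h4, h5⟩ := hP x' hx'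
    rw [Finset.disjoint_left]
    intro z hz hz'
    rw [Finset.mem_insert, Finset.mem_singleton] at hz hz'
    rcases hz with rfl | rfl
    · rcases hz' with h6 | h6
      · exact hne (Subtype.ext h6)
      · exact (mem_Nb.1 h5).1.2 (h6 ▸ x.2)
    · rcases hz' with h6 | h6
      · exact (mem_Nb.1 h3).1.2 (h6 ▸ x'.2)
      · apply hne
        apply hf
        rw [h2, h4, h6]
  have hM : Mat K (P.image fun x => ({x.1, g x} : Finset α)) := by
    refine ⟨fun e he => ?_, fun e he e' he' hne => ?_⟩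
    · obtain ⟨x, hx, rfl⟩ := Finset.mem_image.1 he
      exact (mem_Nb.1 (hP x hx).2).2
    · obtain ⟨x, hx, rfl⟩ := Finset.mem_image.1 he
      obtain ⟨x', hx', rfl⟩ := Finset.mem_image.1 he'
      exact hdis x hx x' hx' fun h => hne (by rw [h])
  have hMc : (P.image fun x => ({x.1, g x} : Finset α)).card = P.card := by
    apply Finset.card_image_of_injOn
    intro x hx x' hx' hxx
    by_contra hne
    have h6 := hdis x hx x' hx' hne
    have h7 : ({x.1, g x} : Finset α) = {x'.1, g x'} := hxx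
    rw [h7, Finset.disjoint_self_iff_empty] at h6
    exact Finset.insert_ne_empty _ _ h6
  have h8 := le_nu hM
  rw [hMc] at h8
  have h9 : (D.attach.filter (fun x => ¬ ((f x).isLeft = true))).card ≤ δ := by
    have h10 : (D.attach.filter (fun x => ¬ ((f x).isLeft = true))).card ≤
        ((Finset.univ : Finset (Fin δ)).map Function.Embedding.inr : Finset (α ⊕ Fin δ)).card := by
      apply Finset.card_le_card_of_injOn f
      · intro x hx
        have h11 := (Finset.mem_filter.1 hx).2
        rcases hfx : f x with y | j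
        · rw [hfx] at h11
          exact absurd rfl h11
        · exact Finset.mem_coe.2 (Finset.mem_map.2 ⟨j, Finset.mem_univ _, rfl⟩)
      · exact hf.injOn
    rwa [Finset.card_map, Finset.card_univ, Fintype.card_fin] at h10
  have h12 := Finset.card_filter_add_card_filter_not (s := D.attach) (fun x => (f x).isLeft = true)
  rw [Finset.card_attach] at h12
  have h13 : (D.attach.filter (fun x => (f x).isLeft = true)).card = P.card := rfl
  omega

end unique

/-- If there is only one vertex cover of size `b` then `3 b ≤ |E| + ν`. -/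
theorem unique_bound {V : Finset α} {K : Finset (Finset α)} {b : ℕ} (hK : Gr V K) (hne : (fam V K b).Nonempty)
    (hs : (fam V K b).Subsingleton) (hg : b + 1 ≤ V.card) : 3 * b ≤ K.card + nu K := by
  classical
  obtain ⟨D, hD⟩ := hne
  have hu : ∀ D' ∈ fam V K b, D' = D := fun D' h => hs h hD
  obtain ⟨A, hA, hAδ⟩ := Finset.exists_mem_eq_sup D.powerset ⟨∅, Finset.mem_powerset.2 (Finset.empty_subset _)⟩
    (fun A => A.card - (A.biUnion (Nb V K D)).card)
  set δ := D.powerset.sup (fun A => A.card - (A.biUnion (Nb V K D)).card) with hδ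
  have h1 : ∀ B ⊆ D, B.card ≤ (B.biUnion (Nb V K D)).card + δ := by
    intro B hB
    have h2 : B.card - (B.biUnion (Nb V K D)).card ≤ δ :=
      Finset.le_sup (f := fun A => A.card - (A.biUnion (Nb V K D)).card) (Finset.mem_powerset.2 hB)
    omega
  have h2 := hall hD.1 h1
  have h3 := edges_out hK hD hu hg
  have h4 := hD.2.1
  rcases A.eq_empty_or_nonempty with rfl | hAne
  · rw [Finset.card_empty, Nat.zero_sub] at hAδ
    omega
  · have h5 := exchange hK hD hu hg (Finset.mem_powerset.1 hA) hAne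
    by_cases hδ0 : δ = 0
    · omega
    · have h6 : δ = A.card - (A.biUnion (Nb V K D)).card := hAδ
      omega

end Pool.MP_38cb75_co.P2
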