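import Pool.Agent.Lib.MP_38cb75_co.OneGood

/-!
# Adaptive group testing with tests of size at most two: elementary facts
-/

set_option autoImplicit false

namespace Pool.MP_38cb75_co.P2

open Pool.MP_38cb75_co.GT

variable {α : Type*} [DecidableEq α]

/-- Some adaptive strategy of at most `t` tests of size at most two identifies an unknown member of
the family `F`. -/
def Sol : ℕ → Set (Finset α) → Prop
  | 0, F => F.Subsingleton
  | (t + 1), F => ∃ S : Finset α, S.card ≤ 2 ∧
      Sol t {D | D ∈ F ∧ (S ∩ D).Nonempty} ∧ Sol t {D | D ∈ F ∧ ¬ (S ∩ D).Nonempty}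

theorem Sol.solves {t : ℕ} {F : Set (Finset α)} (h : Sol t F) : Solves t F := by
  induction t generalizing F with
  | zero => exact h
  | succ t ih =>
    obtain ⟨S, _, h1, h2⟩ := h
    exact ⟨S, ih h1, ih h2⟩

theorem Sol.mono_set {t : ℕ} {F G : Set (Finset α)} (h : F ⊆ G) (hG : Sol t G) : Sol t F := by
  induction t generalizing F G with
  | zero => exact Set.Subsingleton.anti hG h
  | succ t ih =>
    obtain ⟨S, hS, h1, h2⟩ := hG
    refine ⟨S, hS, ih ?_ h1, ih ?_ h2⟩
    · intro D hD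
      exact ⟨h hD.1, hD.2⟩
    · intro D hD
      exact ⟨h hD.1, hD.2⟩

theorem Sol.succ {t : ℕ} {F : Set (Finset α)} (h : Sol t F) : Sol (t + 1) F :=
  ⟨∅, by simp, Sol.mono_set (fun _ hD => hD.1) h, Sol.mono_set (fun _ hD => hD.1) h⟩

theorem Sol.mono {t t' : ℕ} {F : Set (Finset α)} (h : Sol t F) (ht : t ≤ t') : Sol t' F := by
  induction ht with
  | refl => exact h
  | step _ ih => exact ih.succ

theorem Sol.of_subsingleton {F : Set (Finset α)} (h : F.Subsingleton) (t : ℕ) : Sol t F :=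
  Sol.mono (t := 0) (t' := t) h (Nat.zero_le t)

/-- Revealing that all items of `R` are defective. -/
theorem Sol.reveal {t : ℕ} {F : Set (Finset α)} (R : Finset α) (h : Sol t F) :
    Sol t {D | Disjoint D R ∧ D ∪ R ∈ F} := by
  induction t generalizing F with
  | zero =>
    intro D hD D' hD'
    have h1 : D ∪ R = D' ∪ R := h hD.2 hD'.2
    have h2 : (D ∪ R) \ R = D := by
      rw [Finset.union_sdiff_right]; exact Finset.sdiff_eq_self_of_disjoint hD.1
    have h3 : (D' ∪ R) \ R = D' := by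
      rw [Finset.union_sdiff_right]; exact Finset.sdiff_eq_self_of_disjoint hD'.1
    rw [← h2, ← h3, h1]
  | succ t ih =>
    obtain ⟨S, hS, h1, h2⟩ := h
    by_cases hSR : (S ∩ R).Nonempty
    · apply Sol.succ
      refine Sol.mono_set ?_ (ih h1)
      intro D hD
      exact ⟨hD.1, hD.2, hSR.mono (Finset.inter_subset_inter_left Finset.subset_union_right)⟩
    · have key : ∀ D : Finset α, (S ∩ (D ∪ R)).Nonempty ↔ (S ∩ D).Nonempty := by
        intro D
        rw [Finset.not_nonempty_iff_eq_empty] at hSR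
        rw [Finset.inter_union_distrib_left, hSR, Finset.union_empty]
      refine ⟨S, hS, Sol.mono_set ?_ (ih h1), Sol.mono_set ?_ (ih h2)⟩
      · intro D hD
        exact ⟨hD.1.1, hD.1.2, (key D).2 hD.2⟩
      · intro D hD
        exact ⟨hD.1.1, hD.1.2, fun h => hD.2 ((key D).1 h)⟩

/-- Known defective items may be ignored. -/
theorem Sol.lift {t : ℕ} {F : Set (Finset α)} (R : Finset α)
    (h : Sol t {D' | ∃ D ∈ F, D' = D \ R}) (hR : ∀ D ∈ F, R ⊆ D) : Sol t F := by
  induction t generalizing F with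
  | zero =>
    intro D hD D' hD'
    have h1 : D \ R = D' \ R := h ⟨D, hD, rfl⟩ ⟨D', hD', rfl⟩
    rw [← Finset.sdiff_union_of_subset (hR D hD), ← Finset.sdiff_union_of_subset (hR D' hD'), h1]
  | succ t ih =>
    obtain ⟨S, hS, h1, h2⟩ := h
    have key : ∀ D : Finset α, ((S \ R) ∩ D).Nonempty ↔ (S ∩ (D \ R)).Nonempty := by
      intro D
      constructor
      · rintro ⟨x, hx⟩
        rw [Finset.mem_inter, Finset.mem_sdiff] at hx
        exact ⟨x, Finset.mem_inter.2 ⟨hx.1.1, Finset.mem_sdiff.2 ⟨hx.2, hx.1.2⟩⟩⟩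
      · rintro ⟨x, hx⟩
        rw [Finset.mem_inter, Finset.mem_sdiff] at hx
        exact ⟨x, Finset.mem_inter.2 ⟨Finset.mem_sdiff.2 ⟨hx.1, hx.2.2⟩, hx.2.1⟩⟩
    refine ⟨S \ R, (Finset.card_le_card Finset.sdiff_subset).trans hS, ih (Sol.mono_set ?_ h1)
      (fun D hD => hR D hD.1), ih (Sol.mono_set ?_ h2) (fun D hD => hR D hD.1)⟩
    · rintro D' ⟨D, hD, rfl⟩
      exact ⟨⟨D, hD.1, rfl⟩, (key D).1 hD.2⟩
    · rintro D' ⟨D, hD, rfl⟩
      exact ⟨⟨D, hD.1, rfl⟩, fun h => hD.2 ((key D).2 h)⟩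

end Pool.MP_38cb75_co.P2
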