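import Pool.Agent.Lib.MP_38cb75_co_P.Base
import Pool.Agent.Lib.MP_38cb75_co.DegA

/-!
# Revealing a non-defective item of degree at most one
-/

set_option autoImplicit false
set_option linter.unusedSectionVars false

namespace Pool.MP_38cb75_co.P2

open Pool.MP_38cb75_co.GT

variable {α : Type*} [DecidableEq α]

theorem fam_erase {V : Finset α} {K : Finset (Finset α)} {b : ℕ} {v : α} {D : Finset α} :
    D ∈ fam (V.erase v) K b ↔ D ∈ fam V K b ∧ v ∉ D := by
  constructor
  · intro h
    exact ⟨⟨h.1.trans (Finset.erase_subset _ _), h.2.1, h.2.2⟩, fun hv => Finset.notMem_erase v V (h.1 hv)⟩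
  · rintro ⟨h, hv⟩
    refine ⟨fun x hx => Finset.mem_erase.2 ⟨?_, h.1 hx⟩, h.2.1, h.2.2⟩
    rintro rfl
    exact hv hx

theorem fam_bad {V : Finset α} {K : Finset (Finset α)} {b : ℕ} {v : α} (hv : v ∈ V) {D : Finset α}
    (h : D ∈ fam (V.erase v) (del K v) b) : D ∪ {v} ∈ fam V K (b + 1) := by
  have hvD : v ∉ D := fun hv => Finset.notMem_erase v V (h.1 hv)
  refine ⟨?_, ?_, ?_⟩
  · intro x hx
    rw [Finset.mem_union, Finset.mem_singleton] at hx
    rcases hx with hx | rfl
    · exact Finset.mem_of_mem_erase (h.1 hx)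
    · exact hv
  · rw [Finset.card_union_of_disjoint (by simpa using hvD), h.2.1, Finset.card_singleton]
  · intro e he
    by_cases hve : v ∈ e
    · exact ⟨v, by simp [hve]⟩
    · exact (h.2.2 e (mem_del.2 ⟨he, hve⟩)).mono (Finset.inter_subset_inter_left Finset.subset_union_left)

theorem fam_bad' {V : Finset α} {K : Finset (Finset α)} {b : ℕ} {v : α} {D : Finset α}
    (h : D ∈ fam V K (b + 1)) (hv : v ∈ D) : D \ {v} ∈ fam (V.erase v) (del K v) b := by
  refine ⟨?_, ?_, ?_⟩
  · intro x hx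
    rw [Finset.mem_sdiff, Finset.mem_singleton] at hx
    exact Finset.mem_erase.2 ⟨hx.2, h.1 hx.1⟩
  · rw [Finset.card_sdiff_of_subset (Finset.singleton_subset_iff.2 hv), h.2.1, Finset.card_singleton]
    omega
  · intro e he
    rw [mem_del] at he
    obtain ⟨z, hz⟩ := h.2.2 e he.1
    rw [Finset.mem_inter] at hz
    refine ⟨z, Finset.mem_inter.2 ⟨hz.1, Finset.mem_sdiff.2 ⟨hz.2, ?_⟩⟩⟩
    rw [Finset.mem_singleton]
    rintro rfl
    exact he.2 hz.1

theorem Gr.del {V : Finset α} {K : Finset (Finset α)} (hK : Gr V K) (v : α) : Gr (V.erase v) (del K v) := by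
  intro e he
  rw [mem_del] at he
  obtain ⟨h1, h2⟩ := hK e he.1
  refine ⟨fun x hx => Finset.mem_erase.2 ⟨?_, h1 hx⟩, h2⟩
  rintro rfl
  exact he.2 hx

theorem good_step {V : Finset α} {K : Finset (Finset α)} {b : ℕ} {x : α} {M : Finset (Finset α)} (hK : Gr V K)
    (hx : x ∈ V) (hg : b + 2 ≤ V.card) (hdeg : deg K x ≤ 1) (hM : Mat K M) (hMc : M.card = nu K)
    (hMx : ∀ e ∈ M, x ∉ e) (hne : ∃ D ∈ fam V K b, x ∉ D) :
    ∃ (V' : Finset α) (K' : Finset (Finset α)) (b' : ℕ) (R : Finset α) (M' : Finset (Finset α)),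
      Gr V' K' ∧ V' ⊆ V ∧ x ∉ V' ∧ Disjoint V' R ∧ K' ⊆ K ∧ M' ⊆ M ∧ Mat K' M' ∧ M'.card = nu K' ∧
      b' + V.card = b + V'.card + 1 ∧
      (∀ y ∈ V, y ≠ x → {x, y} ∉ K → y ∈ V') ∧
      (∀ D' ∈ fam V' K' b', D' ∪ R ∈ fam V K b ∧ x ∉ D' ∪ R) ∧
      (∀ D ∈ fam V K b, x ∉ D → D \ R ∈ fam V' K' b') ∧
      V.card + K'.card + nu K ≤ V'.card + K.card + nu K' + 1 ∧
      3 * b + K'.card + nu K' ≤ 3 * b' + K.card + nu K := by
  have hV : 0 < V.card := by omega
  by_cases h0 : deg K x = 0
  · have hx0 : ∀ e ∈ K, x ∉ e := deg_eq_zero.1 h0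
    refine ⟨V.erase x, K, b, ∅, M, ?_, Finset.erase_subset _ _, Finset.notMem_erase _ _, Finset.disjoint_empty_right _,
      Finset.Subset.refl _, Finset.Subset.refl _, hM, hMc, ?_, ?_, ?_, ?_, ?_, ?_⟩
    · intro e he
      refine ⟨fun z hz => Finset.mem_erase.2 ⟨?_, (hK e he).1 hz⟩, (hK e he).2⟩
      rintro rfl
      exact hx0 e he hz
    · rw [Finset.card_erase_of_mem hx]
      omega
    · intro y hy hyx _
      exact Finset.mem_erase.2 ⟨hyx, hy⟩
    · intro D' hD'
      rw [Finset.union_empty]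
      exact fam_erase.1 hD'
    · intro D hD hxD
      rw [Finset.sdiff_empty]
      exact fam_erase.2 ⟨hD, hxD⟩
    · rw [Finset.card_erase_of_mem hx]
      omega
    · exact le_rfl
  · have h1 : deg K x = 1 := by omega
    obtain ⟨e, he, hxe⟩ := exists_of_deg_pos (K := K) (v := x) (by omega)
    obtain ⟨w, hwx, hew, hwV⟩ := hK.other he hxe
    have huniq : ∀ f ∈ K, x ∈ f → f = e := fun f hf hxf => eq_of_deg_one h1 hf he hxf hxe
    obtain ⟨D0, hD0, hxD0⟩ := hne
    have hwD : ∀ D ∈ fam V K b, x ∉ D → w ∈ D := by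
      intro D hD hxD
      obtain ⟨z, hz⟩ := hD.2.2 e he
      rw [Finset.mem_inter, hew, Finset.mem_insert, Finset.mem_singleton] at hz
      rcases hz.1 with rfl | rfl
      · exact absurd hz.2 hxD
      · exact hz.2
    have hb : 0 < b := by
      rw [← hD0.2.1]
      exact Finset.card_pos.2 ⟨w, hwD D0 hD0 hxD0⟩
    obtain ⟨c, rfl⟩ : ∃ c, b = c + 1 := ⟨b - 1, by omega⟩
    have hxdel : ∀ f ∈ del K w, x ∉ f := by
      intro f hf hxf
      rw [mem_del] at hf
      have := huniq f hf.1 hxf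
      apply hf.2
      rw [this, hew]
      simp
    have hn1 := nu_del K w
    have hn2 : nu (del K w) + 1 ≤ nu K := by
      obtain ⟨M2, hM2, hM2c⟩ := exists_max (del K w)
      have h2 : Mat K (insert e M2) := by
        refine Mat.insert (K := K) ⟨hM2.1.trans (del_sub K w), hM2.2⟩ he fun f hf => ?_
        rw [Finset.disjoint_left]
        intro z hz hzf
        rw [hew, Finset.mem_insert, Finset.mem_singleton] at hz
        rcases hz with rfl | rfl
        · exact hxdel f (hM2.1 hf) hzf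
        · exact (mem_del.1 (hM2.1 hf)).2 hzf
      have h3 := le_nu h2
      have h4 : e ∉ M2 := by
        intro h4
        exact hxdel e (hM2.1 h4) hxe
      rw [Finset.card_insert_of_notMem h4] at h3
      omega
    have hM' : Mat (del K w) (M.filter (fun f => w ∉ f)) := by
      refine ⟨fun f hf => ?_, fun a ha a' ha' => hM.2 a (Finset.mem_filter.1 ha).1 a' (Finset.mem_filter.1 ha').1⟩
      rw [Finset.mem_filter] at hf
      exact mem_del.2 ⟨hM.1 hf.1, hf.2⟩
    have hM'c : (M.filter (fun f => w ∉ f)).card = nu (del K w) := by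
      have h2 := le_nu hM'
      have h3 := hM.card_filter w
      omega
    have hdw : 2 ≤ deg K w := by
      obtain ⟨f, hf, hwf⟩ : ∃ f ∈ M, w ∈ f := by
        by_contra hcon
        push Not at hcon
        rw [Finset.filter_true_of_mem hcon] at hM'c
        omega
      have h2 : ({e, f} : Finset (Finset α)) ⊆ K.filter (fun e => w ∈ e) := by
        intro z hz
        rw [Finset.mem_insert, Finset.mem_singleton] at hz
        rcases hz with rfl | rfl
        · refine Finset.mem_filter.2 ⟨he, ?_⟩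
          rw [hew]
          simp
        · exact Finset.mem_filter.2 ⟨hM.1 hf, hwf⟩
      have h3 : e ≠ f := by
        rintro rfl
        exact hMx e hf hxe
      have h4 := Finset.card_le_card h2
      rw [Finset.card_pair h3] at h4
      exact h4
    have hcd := card_del K w
    have hwV' : w ∈ V.erase x := Finset.mem_erase.2 ⟨hwx, hwV⟩
    have hxV' : x ∈ V.erase w := Finset.mem_erase.2 ⟨hwx.symm, hx⟩
    have hc : ((V.erase w).erase x).card + 2 = V.card := by
      rw [Finset.card_erase_of_mem hxV', Finset.card_erase_of_mem hwV]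
      omega
    refine ⟨(V.erase w).erase x, del K w, c, {w}, M.filter (fun f => w ∉ f), ?_,
      (Finset.erase_subset _ _).trans (Finset.erase_subset _ _), Finset.notMem_erase _ _, ?_,
      del_sub K w, Finset.filter_subset _ _, hM', hM'c, ?_, ?_, ?_, ?_, ?_, ?_⟩
    · intro f hf
      have h2 := hK.del w f hf
      refine ⟨fun z hz => Finset.mem_erase.2 ⟨?_, h2.1 hz⟩, h2.2⟩
      rintro rfl
      exact hxdel f hf hz
    · rw [Finset.disjoint_singleton_right]
      intro h2
      exact Finset.notMem_erase w V (Finset.mem_of_mem_erase h2)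
    · omega
    · intro y hy hyx hxy
      refine Finset.mem_erase.2 ⟨hyx, Finset.mem_erase.2 ⟨?_, hy⟩⟩
      rintro rfl
      exact hxy (hew ▸ he)
    · intro D' hD'
      rw [fam_erase] at hD'
      refine ⟨fam_bad hwV hD'.1, ?_⟩
      rw [Finset.mem_union, Finset.mem_singleton]
      rintro (h2 | h2)
      · exact hD'.2 h2
      · exact hwx h2.symm
    · intro D hD hxD
      rw [fam_erase]
      exact ⟨fam_bad' hD (hwD D hD hxD), fun h2 => hxD (Finset.mem_sdiff.1 h2).1⟩
    · omega
    · omega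

end Pool.MP_38cb75_co.P2
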