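import Pool.Agent.Lib.MP_38cb75_co_P.Good
import Pool.Agent.Lib.MP_38cb75_co.OneGood

/-!
# The lower bound for tests of size at most two
-/

set_option autoImplicit false
set_option linter.unusedSectionVars false

namespace Pool.MP_38cb75_co.P2

open Pool.MP_38cb75_co.GT

variable {α : Type*} [DecidableEq α]

/-- The invariant of the adversary. -/
def Ok (V : Finset α) (K : Finset (Finset α)) (b t : ℕ) : Prop :=
  t + 1 ≤ V.card ∧ 2 * t + 2 + 2 * K.card ≤ 3 * b + V.card ∧ t + K.card + nu K ≤ 3 * b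

/-- The induction hypothesis. -/
def IHs (α : Type*) [DecidableEq α] (s : ℕ) : Prop :=
  ∀ (V : Finset α) (K : Finset (Finset α)) (b t : ℕ), Gr V K → (fam V K b).Nonempty → b + 1 ≤ V.card →
    Ok V K b t → Sol s (fam V K b) → t ≤ s

/-- The answer: `v` is defective. -/
theorem bad_case {s : ℕ} (IH : IHs α s) {V : Finset α} {K : Finset (Finset α)} {b t : ℕ} {v : α} (hK : Gr V K)
    (hv : v ∈ V) (hg : b + 1 ≤ V.card) (hOk : Ok V K b t) (hd : 1 ≤ deg K v)
    (hc : 2 ≤ deg K v ∨ nu (del K v) < nu K ∨ t + K.card + nu K + 1 ≤ 3 * b)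
    (hne : ∃ D ∈ fam V K b, v ∈ D) (h : Sol s {D | D ∈ fam V K b ∧ v ∈ D}) : t ≤ s + 1 := by
  obtain ⟨D, hD, hvD⟩ := hne
  have hb : 0 < b := by
    rw [← hD.2.1]
    exact Finset.card_pos.2 ⟨v, hvD⟩
  obtain ⟨c, rfl⟩ : ∃ c, b = c + 1 := ⟨b - 1, by omega⟩
  rcases t with _ | t
  · omega
  have h1 : Sol s (fam (V.erase v) (del K v) c) := by
    refine Sol.mono_set ?_ (h.reveal {v})
    intro D' hD'
    have hvD' : v ∉ D' := fun hv => Finset.notMem_erase v V (hD'.1 hv)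
    exact ⟨by simpa using hvD', fam_bad hv hD', Finset.mem_union_right _ (Finset.mem_singleton_self v)⟩
  have h2 := card_del K v
  have h3 := nu_mono (del_sub K v)
  have h4 : (V.erase v).card = V.card - 1 := Finset.card_erase_of_mem hv
  obtain ⟨o1, o2, o3⟩ := hOk
  have h5 := IH (V.erase v) (del K v) c t (hK.del v) ⟨_, fam_bad' hD hvD⟩ (by omega)
    ⟨by omega, by omega, by omega⟩ h1
  omega

/-- One answer: the item `x` of degree at most one is not defective. -/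
theorem good_case {s : ℕ} (IH : IHs α s) {V : Finset α} {K M : Finset (Finset α)} {b t : ℕ} {v : α} (hK : Gr V K)
    (hv : v ∈ V) (hg : b + 2 ≤ V.card) (hOk : Ok V K b t) (ht : deg K v = 0 ∨ 3 * b ≤ t + K.card + nu K)
    (hdeg : deg K v ≤ 1) (hM : Mat K M) (hMc : M.card = nu K) (hMv : ∀ e ∈ M, v ∉ e)
    (hne : ∃ D ∈ fam V K b, v ∉ D) (h : Sol s {D | D ∈ fam V K b ∧ v ∉ D}) : t ≤ s + 1 := by
  rcases t with _ | t
  · omega
  obtain ⟨o1, o2, o3⟩ := hOk
  by_cases h0 : deg K v = 0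
  · have h1 : Sol s (fam (V.erase v) K b) := Sol.mono_set (fun D hD => fam_erase.1 hD) h
    obtain ⟨D, hD, hvD⟩ := hne
    have h4 : (V.erase v).card = V.card - 1 := Finset.card_erase_of_mem hv
    have hx0 : ∀ e ∈ K, v ∉ e := deg_eq_zero.1 h0
    have h5 := IH (V.erase v) K b t (fun e he => ⟨fun z hz => Finset.mem_erase.2 ⟨fun hzv => hx0 e he (hzv ▸ hz),
      (hK e he).1 hz⟩, (hK e he).2⟩) ⟨D, fam_erase.2 ⟨hD, hvD⟩⟩ (by omega) ⟨by omega, by omega, by omega⟩ h1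
    omega
  have ht' : 3 * b ≤ t + 1 + K.card + nu K := ht.resolve_left h0
  obtain ⟨V', K', b', R, M', hK', -, -, hVR, -, -, -, -, c1, -, c2, c3, c4, c5⟩ :=
    good_step hK hv hg hdeg hM hMc hMv hne
  obtain ⟨D, hD, hvD⟩ := hne
  have h3 : Sol s (fam V' K' b') := by
    refine Sol.mono_set ?_ (h.reveal R)
    intro D' hD'
    exact ⟨hVR.mono_left hD'.1, c2 D' hD'⟩
  have h6 := nu_le_card K'
  have h5 := IH V' K' b' t hK' ⟨_, c3 D hD hvD⟩ (by omega) ⟨by omega, by omega, by omega⟩ h3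
  omega

/-- A test of a single item. -/
theorem single_case {s : ℕ} (IH : IHs α s) {V : Finset α} {K : Finset (Finset α)} {b t : ℕ} {v : α} (hK : Gr V K)
    (hv : v ∈ V) (hg : b + 2 ≤ V.card) (hOk : Ok V K b t) (hne : (fam V K b).Nonempty)
    (hpos : Sol s {D | D ∈ fam V K b ∧ v ∈ D}) (hneg : Sol s {D | D ∈ fam V K b ∧ v ∉ D}) : t ≤ s + 1 := by
  by_cases h1 : ∃ D ∈ fam V K b, v ∈ D
  swap
  · push Not at h1
    have h2 : fam V K b ⊆ {D | D ∈ fam V K b ∧ v ∉ D} := fun D hD => ⟨hD, h1 D hD⟩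
    have := IH V K b t hK hne (by omega) hOk (Sol.mono_set h2 hneg)
    omega
  by_cases h2 : ∃ D ∈ fam V K b, v ∉ D
  swap
  · push Not at h2
    have h3 : fam V K b ⊆ {D | D ∈ fam V K b ∧ v ∈ D} := fun D hD => ⟨hD, h2 D hD⟩
    have := IH V K b t hK hne (by omega) hOk (Sol.mono_set h3 hpos)
    omega
  by_cases hc : 1 ≤ deg K v ∧ (2 ≤ deg K v ∨ nu (del K v) < nu K ∨ t + K.card + nu K + 1 ≤ 3 * b)
  · exact bad_case IH hK hv (by omega) hOk hc.1 hc.2 h1 hpos
  have hn := nu_mono (del_sub K v)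
  obtain ⟨M, hM, hMc⟩ := exists_max (del K v)
  refine good_case IH hK hv hg hOk ?_ ?_ (M := M) ⟨hM.1.trans (del_sub K v), hM.2⟩ ?_
    (fun e he => (mem_del.1 (hM.1 he)).2) h2 hneg
  · by_contra hd
    push Not at hd
    exact hc ⟨by omega, Or.inr (Or.inr (by omega))⟩
  · by_contra hd
    exact hc ⟨by omega, Or.inl (by omega)⟩
  · rw [hMc]
    by_cases hd : 1 ≤ deg K v
    · by_contra hne'
      exact hc ⟨hd, Or.inr (Or.inl (by omega))⟩
    · have h3 : del K v = K := by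
        unfold del
        exact Finset.filter_true_of_mem (deg_eq_zero.1 (by omega))
      rw [h3]

/-- A test of a pair, both items of which have degree at most one; the answer is negative. -/
theorem two_good {s : ℕ} (IH : IHs α s) {V : Finset α} {K M : Finset (Finset α)} {b t : ℕ} {u v : α} (hK : Gr V K)
    (hu : u ∈ V) (hv : v ∈ V) (huv : u ≠ v) (hnK : {u, v} ∉ K) (hg : b + 2 ≤ V.card) (hOk : Ok V K b t)
    (ht : 3 * b ≤ t + K.card + nu K) (hdu : deg K u ≤ 1) (hdv : deg K v ≤ 1) (hM : Mat K M)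
    (hMc : M.card = nu K) (hMu : ∀ e ∈ M, u ∉ e) (hMv : ∀ e ∈ M, v ∉ e)
    (hne : ∃ D ∈ fam V K b, u ∉ D ∧ v ∉ D) (h : Sol s {D | D ∈ fam V K b ∧ u ∉ D ∧ v ∉ D}) : t ≤ s + 1 := by
  rcases t with _ | t
  · omega
  obtain ⟨o1, o2, o3⟩ := hOk
  obtain ⟨D, hD, huD, hvD⟩ := hne
  have hn := nu_le_card K
  have h2 := hM.card_two hK hu hv huv hMu hMv
  obtain ⟨V1, K1, b1, R1, M1, hK1, hV1, -, hVR1, hKK1, hMM1, hM1, hM1c, c1, c6, c2, c3, c4, c5⟩ :=
    good_step hK hu hg hdu hM hMc hMu ⟨D, hD, huD⟩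
  have hv1 : v ∈ V1 := c6 v hv huv.symm hnK
  have hvR : v ∉ R1 := fun h => Finset.disjoint_left.1 hVR1 hv1 h
  have hvD1 : v ∉ D \ R1 := fun h => hvD (Finset.mem_sdiff.1 h).1
  obtain ⟨V2, K2, b2, R2, M2, hK2, -, -, hVR2, -, -, -, -, d1, -, d2, d3, d4, d5⟩ :=
    good_step hK1 hv1 (by omega) ((deg_mono hKK1 v).trans hdv) hM1 hM1c (fun e he => hMv e (hMM1 he))
      ⟨_, c3 D hD huD, hvD1⟩
  have h3 : Sol s {D | D ∈ fam V1 K1 b1 ∧ v ∉ D} := by
    refine Sol.mono_set ?_ (h.reveal R1)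
    rintro D' ⟨hD', hvD'⟩
    refine ⟨hVR1.mono_left hD'.1, (c2 D' hD').1, (c2 D' hD').2, ?_⟩
    rw [Finset.mem_union]
    rintro (h | h)
    · exact hvD' h
    · exact hvR h
  have h4 : Sol s (fam V2 K2 b2) := by
    refine Sol.mono_set ?_ (h3.reveal R2)
    intro D' hD'
    exact ⟨hVR2.mono_left hD'.1, d2 D' hD'⟩
  have h6 := nu_le_card K2
  have h5 := IH V2 K2 b2 t hK2 ⟨_, d3 _ (c3 D hD huD) hvD1⟩ (by omega) ⟨by omega, by omega, by omega⟩ h4
  omega

theorem fam_insert {V : Finset α} {K : Finset (Finset α)} {b : ℕ} {S D : Finset α} :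
    D ∈ fam V (insert S K) b ↔ D ∈ fam V K b ∧ (S ∩ D).Nonempty := by
  constructor
  · intro h
    exact ⟨⟨h.1, h.2.1, fun e he => h.2.2 e (Finset.mem_insert_of_mem he)⟩, h.2.2 S (Finset.mem_insert_self _ _)⟩
  · rintro ⟨h, hS⟩
    refine ⟨h.1, h.2.1, fun e he => ?_⟩
    rw [Finset.mem_insert] at he
    rcases he with rfl | he
    · exact hS
    · exact h.2.2 e he

/-- A test of a pair. -/
theorem pair_case {s : ℕ} (IH : IHs α s) {V : Finset α} {K : Finset (Finset α)} {b t : ℕ} {u v : α} (hK : Gr V K)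
    (hu : u ∈ V) (hv : v ∈ V) (huv : u ≠ v) (hg : b + 2 ≤ V.card) (hOk : Ok V K b t)
    (hne : (fam V K b).Nonempty) (hpos : Sol s {D | D ∈ fam V K b ∧ (({u, v} : Finset α) ∩ D).Nonempty})
    (hneg : Sol s {D | D ∈ fam V K b ∧ ¬ (({u, v} : Finset α) ∩ D).Nonempty}) : t ≤ s + 1 := by
  have key : ∀ D : Finset α, (({u, v} : Finset α) ∩ D).Nonempty ↔ (u ∈ D ∨ v ∈ D) := by
    intro D
    constructor
    · rintro ⟨x, hx⟩
      rw [Finset.mem_inter, Finset.mem_insert, Finset.mem_singleton] at hx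
      rcases hx with ⟨rfl | rfl, hx⟩
      · exact Or.inl hx
      · exact Or.inr hx
    · rintro (h | h)
      · exact ⟨u, by simp [h]⟩
      · exact ⟨v, by simp [h]⟩
  have hneg' : Sol s {D | D ∈ fam V K b ∧ u ∉ D ∧ v ∉ D} := by
    refine Sol.mono_set ?_ hneg
    rintro D ⟨hD, hD1, hD2⟩
    refine ⟨hD, ?_⟩
    rw [key D]
    rintro (h | h)
    · exact hD1 h
    · exact hD2 h
  have hpos' : Sol s {D | D ∈ fam V K b ∧ (u ∈ D ∨ v ∈ D)} := by
    refine Sol.mono_set ?_ hpos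
    rintro D ⟨hD, hD1⟩
    exact ⟨hD, (key D).2 hD1⟩
  -- some member avoids both
  by_cases h0 : ∃ D ∈ fam V K b, u ∉ D ∧ v ∉ D
  swap
  · push Not at h0
    have h2 : fam V K b ⊆ {D | D ∈ fam V K b ∧ (u ∈ D ∨ v ∈ D)} := by
      intro D hD
      refine ⟨hD, ?_⟩
      by_cases hu : u ∈ D
      · exact Or.inl hu
      · exact Or.inr (h0 D hD hu)
    have := IH V K b t hK hne (by omega) hOk (Sol.mono_set h2 hpos')
    omega
  have hnK : {u, v} ∉ K := by
    intro h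
    obtain ⟨D, hD, huD, hvD⟩ := h0
    rcases (key D).1 (hD.2.2 _ h) with h | h
    · exact huD h
    · exact hvD h
  -- `u` is never defective, or `v` is never defective
  by_cases h1 : ∃ D ∈ fam V K b, u ∈ D
  swap
  · push Not at h1
    refine single_case IH hK hv hg hOk hne (Sol.mono_set ?_ hpos') (Sol.mono_set ?_ hneg')
    · rintro D ⟨hD, hvD⟩
      exact ⟨hD, Or.inr hvD⟩
    · rintro D ⟨hD, hvD⟩
      exact ⟨hD, h1 D hD, hvD⟩
  by_cases h2 : ∃ D ∈ fam V K b, v ∈ D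
  swap
  · push Not at h2
    refine single_case IH hK hu hg hOk hne (Sol.mono_set ?_ hpos') (Sol.mono_set ?_ hneg')
    · rintro D ⟨hD, huD⟩
      exact ⟨hD, Or.inl huD⟩
    · rintro D ⟨hD, huD⟩
      exact ⟨hD, huD, h2 D hD⟩
  -- the new edge
  by_cases hc : nu (insert {u, v} K) ≤ nu K ∨ t + K.card + nu K + 1 ≤ 3 * b
  · rcases t with _ | t
    · omega
    obtain ⟨o1, o2, o3⟩ := hOk
    have h3 : (insert {u, v} K).card = K.card + 1 := Finset.card_insert_of_notMem hnK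
    have h4 := nu_insert K {u, v}
    obtain ⟨D, hD, huD⟩ := h1
    have h6 : fam V (insert {u, v} K) b ⊆ {D | D ∈ fam V K b ∧ (({u, v} : Finset α) ∩ D).Nonempty} :=
      fun D hD => fam_insert.1 hD
    have h5 := IH V (insert {u, v} K) b t ?_ ⟨D, fam_insert.2 ⟨hD, (key D).2 (Or.inl huD)⟩⟩ (by omega)
      ⟨by omega, by omega, by omega⟩ (Sol.mono_set h6 hpos)
    · omega
    · intro e he
      rw [Finset.mem_insert] at he
      rcases he with rfl | he
      · exact ⟨Finset.insert_subset hu (Finset.singleton_subset_iff.2 hv), Finset.card_pair huv⟩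
      · exact hK e he
  push Not at hc
  obtain ⟨M, hM, hMc, hMd⟩ := exists_avoid hc.1
  have hMu : ∀ e ∈ M, u ∉ e := fun e he hue => Finset.disjoint_left.1 (hMd e he) (Finset.mem_insert_self _ _) hue
  have hMv : ∀ e ∈ M, v ∉ e := fun e he hve => Finset.disjoint_left.1 (hMd e he)
    (Finset.mem_insert_of_mem (Finset.mem_singleton_self _)) hve
  by_cases hdu : 2 ≤ deg K u
  · refine bad_case IH hK hu (by omega) hOk (by omega) (Or.inl hdu) h1 (Sol.mono_set ?_ hpos')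
    rintro D ⟨hD, huD⟩
    exact ⟨hD, Or.inl huD⟩
  by_cases hdv : 2 ≤ deg K v
  · refine bad_case IH hK hv (by omega) hOk (by omega) (Or.inl hdv) h2 (Sol.mono_set ?_ hpos')
    rintro D ⟨hD, hvD⟩
    exact ⟨hD, Or.inr hvD⟩
  exact two_good IH hK hu hv huv hnK hg hOk (by omega) (by omega) (by omega) hM hMc hMu hMv h0 hneg'

/-- The lower bound. -/
theorem lower (s : ℕ) : IHs α s := by
  induction s with
  | zero =>
    intro V K b t hK hne hg hOk hs
    have h1 := unique_bound hK hne hs hg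
    have h2 := hOk.2.2
    omega
  | succ s IH =>
    intro V K b t hK hne hg hOk hs
    by_cases hg1 : b + 1 = V.card
    · have h1 := one_good (fun e he => ⟨(hK e he).1, (hK e he).2.ge⟩) hg1 hs.solves
      have h2 := hOk.1
      omega
    have hg2 : b + 2 ≤ V.card := by omega
    obtain ⟨S, hS, hpos, hneg⟩ := hs
    have key : ∀ D ∈ fam V K b, (S ∩ D).Nonempty ↔ ((S ∩ V) ∩ D).Nonempty := by
      intro D hD
      constructor
      · rintro ⟨x, hx⟩
        rw [Finset.mem_inter] at hx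
        exact ⟨x, Finset.mem_inter.2 ⟨Finset.mem_inter.2 ⟨hx.1, hD.1 hx.2⟩, hx.2⟩⟩
      · rintro ⟨x, hx⟩
        rw [Finset.mem_inter, Finset.mem_inter] at hx
        exact ⟨x, Finset.mem_inter.2 ⟨hx.1.1, hx.2⟩⟩
    have hpos' : Sol s {D | D ∈ fam V K b ∧ ((S ∩ V) ∩ D).Nonempty} := by
      refine Sol.mono_set ?_ hpos
      rintro D ⟨hD, h⟩
      exact ⟨hD, (key D hD).2 h⟩
    have hneg' : Sol s {D | D ∈ fam V K b ∧ ¬ ((S ∩ V) ∩ D).Nonempty} := by
      refine Sol.mono_set ?_ hneg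
      rintro D ⟨hD, h⟩
      exact ⟨hD, fun h1 => h ((key D hD).1 h1)⟩
    have hSV : S ∩ V ⊆ V := Finset.inter_subset_right
    have hSc : (S ∩ V).card ≤ 2 := (Finset.card_le_card Finset.inter_subset_left).trans hS
    generalize S ∩ V = T at hpos' hneg' hSV hSc
    have h3 : T.card = 0 ∨ T.card = 1 ∨ T.card = 2 := by omega
    rcases h3 with h3 | h3 | h3
    · rw [Finset.card_eq_zero] at h3
      subst h3
      have h4 : fam V K b ⊆ {D | D ∈ fam V K b ∧ ¬ (((∅ : Finset α)) ∩ D).Nonempty} := by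
        intro D hD
        refine ⟨hD, ?_⟩
        rw [Finset.empty_inter]
        exact Finset.not_nonempty_empty
      have := IH V K b t hK hne hg hOk (Sol.mono_set h4 hneg')
      omega
    · obtain ⟨v, rfl⟩ := Finset.card_eq_one.1 h3
      refine single_case IH hK (Finset.singleton_subset_iff.1 hSV) hg2 hOk hne (Sol.mono_set ?_ hpos')
        (Sol.mono_set ?_ hneg')
      · rintro D ⟨hD, hvD⟩
        exact ⟨hD, v, by simp [hvD]⟩
      · rintro D ⟨hD, hvD⟩
        refine ⟨hD, ?_⟩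
        rintro ⟨x, hx⟩
        rw [Finset.mem_inter, Finset.mem_singleton] at hx
        exact hvD (hx.1 ▸ hx.2)
    · obtain ⟨u, v, huv, rfl⟩ := Finset.card_eq_two.1 h3
      exact pair_case IH hK (hSV (by simp)) (hSV (by simp)) huv hg2 hOk hne hpos' hneg'

end Pool.MP_38cb75_co.P2
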