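import Pool.Agent.Lib.MP_38cb75_co_P.Upper

/-!
# Strategies as functions of the history
-/

set_option autoImplicit false

namespace Pool.MP_38cb75_co.P2

open Pool.MP_38cb75_co.GT

/-- A strategy (as a function of the history) with tests of size at most two. -/
theorem sol_of_strategy {α : Type*} [DecidableEq α] (k : ℕ) (F : Set (Finset α))
    (f : (Fin k → Bool) → Fin k → Finset α)
    (hc : ∀ (h : Fin k → Bool) (i : Fin k), (f h i).card ≤ 2)
    (hf : ∀ h h' : Fin k → Bool, ∀ i : Fin k, (∀ j : Fin k, j < i → h j = h' j) → f h i = f h' i)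
    (hD : ∀ D ∈ F, ∀ D' ∈ F, ∀ t : Fin k → Bool,
      (∀ i : Fin k, t i = decide ((f t i ∩ D).Nonempty)) →
      (∀ i : Fin k, t i = decide ((f t i ∩ D').Nonempty)) → D = D') :
    Sol k F := by
  induction k generalizing F with
  | zero =>
    intro D hDF D' hDF'
    exact hD D hDF D' hDF' (fun i => i.elim0) (fun i => i.elim0) (fun i => i.elim0)
  | succ k ih =>
    have key : ∀ (c : Bool) (G : Set (Finset α)), (∀ D ∈ G, D ∈ F ∧
        c = decide ((f (fun _ => true) 0 ∩ D).Nonempty)) → Sol k G := by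
      intro c G hG
      have h0 : ∀ h : Fin (k + 1) → Bool, f h 0 = f (fun _ => true) 0 := by
        intro h
        apply hf
        intro j hj
        exact absurd hj (Fin.not_lt_zero j)
      have hcons : ∀ (t : Fin k → Bool) (D : Finset α),
          c = decide ((f (fun _ => true) 0 ∩ D).Nonempty) →
          (∀ i : Fin k, t i = decide ((f (Fin.cons c t) i.succ ∩ D).Nonempty)) →
          ∀ i : Fin (k + 1), (Fin.cons c t : Fin (k + 1) → Bool) i =
            decide ((f (Fin.cons c t) i ∩ D).Nonempty) := by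
        intro t D hc ht i
        refine Fin.cases ?_ (fun j => ?_) i
        · rw [Fin.cons_zero, h0]
          exact hc
        · rw [Fin.cons_succ]
          exact ht j
      apply ih G (fun h i => f (Fin.cons c h) i.succ) (fun h i => hc _ _)
      · intro h h' i hj
        apply hf
        intro j
        refine Fin.cases ?_ (fun j' => ?_) j
        · intro _
          rw [Fin.cons_zero, Fin.cons_zero]
        · intro hlt
          rw [Fin.cons_succ, Fin.cons_succ]
          exact hj j' (Fin.succ_lt_succ_iff.1 hlt)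
      · intro D hDG D' hDG' t ht ht'
        obtain ⟨h1, h2⟩ := hG D hDG
        obtain ⟨h3, h4⟩ := hG D' hDG'
        exact hD D h1 D' h3 (Fin.cons c t) (hcons t D h2 ht) (hcons t D' h4 ht')
    refine ⟨f (fun _ => true) 0, hc _ _, key true _ ?_, key false _ ?_⟩
    · rintro D ⟨h1, h2⟩
      exact ⟨h1, by simp [h2]⟩
    · rintro D ⟨h1, h2⟩
      exact ⟨h1, by simp [h2]⟩

theorem strategy_of_sol {α : Type*} [DecidableEq α] (k : ℕ) (F : Set (Finset α)) (hF : Sol k F) :
    ∃ f : (Fin k → Bool) → Fin k → Finset α,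
      (∀ (h : Fin k → Bool) (i : Fin k), (f h i).card ≤ 2) ∧
      (∀ h h' : Fin k → Bool, ∀ i : Fin k, (∀ j : Fin k, j < i → h j = h' j) → f h i = f h' i) ∧
      ∀ D ∈ F, ∀ D' ∈ F, ∀ t : Fin k → Bool,
        (∀ i : Fin k, t i = decide ((f t i ∩ D).Nonempty)) →
        (∀ i : Fin k, t i = decide ((f t i ∩ D').Nonempty)) → D = D' := by
  induction k generalizing F with
  | zero =>
    exact ⟨fun _ i => i.elim0, fun _ i => i.elim0, fun _ _ i => i.elim0, fun D hD D' hD' _ _ _ => hF hD hD'⟩
  | succ k ih =>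
    obtain ⟨S, hS, h1, h0⟩ := hF
    obtain ⟨f1, c1, a1, d1⟩ := ih _ h1
    obtain ⟨f0, c0, a0, d0⟩ := ih _ h0
    refine ⟨fun h => Fin.cases S (fun i => if h 0 = true then f1 (Fin.tail h) i else f0 (Fin.tail h) i), ?_, ?_, ?_⟩
    · intro h i
      refine Fin.cases ?_ (fun j => ?_) i
      · exact hS
      · change (if h 0 = true then f1 (Fin.tail h) j else f0 (Fin.tail h) j).card ≤ 2
        split_ifs
        · exact c1 _ _
        · exact c0 _ _
    · intro h h' i
      refine Fin.cases (fun _ => rfl) (fun j hj => ?_) i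
      change (if h 0 = true then f1 (Fin.tail h) j else f0 (Fin.tail h) j) =
        (if h' 0 = true then f1 (Fin.tail h') j else f0 (Fin.tail h') j)
      rw [hj 0 (Fin.succ_pos j)]
      have ht : ∀ l : Fin k, l < j → Fin.tail h l = Fin.tail h' l := fun l hl => hj l.succ (Fin.succ_lt_succ_iff.2 hl)
      rw [a1 _ _ j ht, a0 _ _ j ht]
    · intro D hD D' hD' t ht ht'
      have e1 : t 0 = decide ((S ∩ D).Nonempty) := ht 0
      have e2 : t 0 = decide ((S ∩ D').Nonempty) := ht' 0
      have g1 : ∀ j : Fin k, Fin.tail t j =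
          decide (((if t 0 = true then f1 (Fin.tail t) j else f0 (Fin.tail t) j) ∩ D).Nonempty) := fun j => ht j.succ
      have g2 : ∀ j : Fin k, Fin.tail t j =
          decide (((if t 0 = true then f1 (Fin.tail t) j else f0 (Fin.tail t) j) ∩ D').Nonempty) := fun j => ht' j.succ
      by_cases h : t 0 = true
      · rw [h] at e1 e2
        simp only [if_pos h] at g1 g2
        exact d1 D ⟨hD, of_decide_eq_true e1.symm⟩ D' ⟨hD', of_decide_eq_true e2.symm⟩ _ g1 g2
      · simp only [if_neg h] at g1 g2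
        rw [Bool.not_eq_true] at h
        rw [h] at e1 e2
        exact d0 D ⟨hD, of_decide_eq_false e1.symm⟩ D' ⟨hD', of_decide_eq_false e2.symm⟩ _ g1 g2

/-- The value, in terms of strategies. -/
theorem final (d n : ℕ) (hd : 0 < d) (hdn : d < n) :
    sInf {k : ℕ | ∃ f : (Fin k → Bool) → Fin k → Finset (Fin n),
      (∀ h : Fin k → Bool, ∀ i : Fin k, (f h i).card ≤ 2) ∧
      (∀ h h' : Fin k → Bool, ∀ i : Fin k,
          (∀ j : Fin k, j < i → h j = h' j) → f h i = f h' i) ∧
      ∀ D D' : Finset (Fin n), D.card = d → D'.card = d →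
        ∀ t : Fin k → Bool,
          (∀ i : Fin k, t i = decide ((f t i ∩ D).Nonempty)) →
          (∀ i : Fin k, t i = decide ((f t i ∩ D').Nonempty)) →
          D = D'} = val n d := by
  have hcard : (Finset.univ : Finset (Fin n)).card = n := by rw [Finset.card_univ, Fintype.card_fin]
  have hmem : ∀ D : Finset (Fin n), D ∈ fam Finset.univ (∅ : Finset (Finset (Fin n))) d ↔ D.card = d :=
    fun D => ⟨fun h => h.2.1, fun h => ⟨Finset.subset_univ _, h, hits_empty _⟩⟩
  apply le_antisymm
  · apply Nat.sInf_le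
    obtain ⟨f, h1, h2, h3⟩ := strategy_of_sol _ _ (upper_val n Finset.univ d hcard hd hdn)
    exact ⟨f, h1, h2, fun D D' hD hD' => h3 D ((hmem D).2 hD) D' ((hmem D').2 hD')⟩
  · refine le_csInf ?_ ?_
    · obtain ⟨f, h1, h2, h3⟩ := strategy_of_sol _ _ (upper_val n Finset.univ d hcard hd hdn)
      exact ⟨val n d, f, h1, h2, fun D D' hD hD' => h3 D ((hmem D).2 hD) D' ((hmem D').2 hD')⟩
    · rintro k ⟨f, h1, h2, h3⟩
      have h4 : Sol k (fam Finset.univ (∅ : Finset (Finset (Fin n))) d) :=
        sol_of_strategy k _ f h1 h2 fun D hD D' hD' => h3 D D' ((hmem D).1 hD) ((hmem D').1 hD')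
      have h5 := lower_val hd (by rw [hcard]; exact hdn) h4
      rwa [hcard] at h5

end Pool.MP_38cb75_co.P2
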