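import Pool.Agent.Lib.MP_38cb75_co_P.Basic

/-!
# Matchings
-/

set_option autoImplicit false
set_option linter.unusedSectionVars false

namespace Pool.MP_38cb75_co.P2

open Pool.MP_38cb75_co.GT

variable {α : Type*} [DecidableEq α]

/-- A set of pairwise disjoint edges of `K`. -/
def Mat (K M : Finset (Finset α)) : Prop := M ⊆ K ∧ ∀ e ∈ M, ∀ f ∈ M, e ≠ f → Disjoint e f

open Classical in
/-- The matching number. -/
noncomputable def nu (K : Finset (Finset α)) : ℕ := (K.powerset.filter (Mat K)).sup Finset.card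

theorem le_nu {K M : Finset (Finset α)} (h : Mat K M) : M.card ≤ nu K := by
  classical
  exact Finset.le_sup (f := Finset.card) (Finset.mem_filter.2 ⟨Finset.mem_powerset.2 h.1, h⟩)

theorem mat_empty (K : Finset (Finset α)) : Mat K ∅ := ⟨Finset.empty_subset _, fun e he => by simp at he⟩

theorem exists_max (K : Finset (Finset α)) : ∃ M, Mat K M ∧ M.card = nu K := by
  classical
  have hne : (K.powerset.filter (Mat K)).Nonempty :=
    ⟨∅, Finset.mem_filter.2 ⟨Finset.mem_powerset.2 (Finset.empty_subset _), mat_empty K⟩⟩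
  obtain ⟨M, hM, h⟩ := Finset.exists_mem_eq_sup _ hne Finset.card
  exact ⟨M, (Finset.mem_filter.1 hM).2, h.symm⟩

theorem nu_mono {K K' : Finset (Finset α)} (h : K ⊆ K') : nu K ≤ nu K' := by
  obtain ⟨M, hM, hc⟩ := exists_max K
  rw [← hc]
  exact le_nu ⟨hM.1.trans h, hM.2⟩

theorem Mat.sub {K M M' : Finset (Finset α)} (h : Mat K M) (hM : M' ⊆ M) : Mat K M' :=
  ⟨hM.trans h.1, fun e he f hf => h.2 e (hM he) f (hM hf)⟩

theorem Mat.insert {K M : Finset (Finset α)} (h : Mat K M) {e : Finset α} (he : e ∈ K)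
    (hd : ∀ f ∈ M, Disjoint e f) : Mat K (insert e M) := by
  refine ⟨Finset.insert_subset he h.1, fun a ha b hb hab => ?_⟩
  rw [Finset.mem_insert] at ha hb
  rcases ha with rfl | ha
  · rcases hb with rfl | hb
    · exact absurd rfl hab
    · exact hd b hb
  · rcases hb with rfl | hb
    · exact (hd a ha).symm
    · exact h.2 a ha b hb hab

theorem nu_insert (K : Finset (Finset α)) (e : Finset α) : nu (insert e K) ≤ nu K + 1 := by
  obtain ⟨M, hM, hc⟩ := exists_max (insert e K)
  have h1 : Mat K (M.erase e) := by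
    refine ⟨fun f hf => ?_, fun a ha b hb => hM.2 a (Finset.mem_of_mem_erase ha) b (Finset.mem_of_mem_erase hb)⟩
    have h2 := hM.1 (Finset.mem_of_mem_erase hf)
    rw [Finset.mem_insert] at h2
    exact h2.resolve_left (Finset.ne_of_mem_erase hf)
  have h3 := le_nu h1
  have h4 := Finset.pred_card_le_card_erase (s := M) (a := e)
  omega

/-- If a new edge increases the matching number, some maximum matching avoids it. -/
theorem exists_avoid {K : Finset (Finset α)} {e : Finset α} (h : nu K < nu (insert e K)) :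
    ∃ M, Mat K M ∧ M.card = nu K ∧ ∀ f ∈ M, Disjoint e f := by
  obtain ⟨M, hM, hc⟩ := exists_max (insert e K)
  have h1 : Mat K (M.erase e) := by
    refine ⟨fun f hf => ?_, fun a ha b hb => hM.2 a (Finset.mem_of_mem_erase ha) b (Finset.mem_of_mem_erase hb)⟩
    have h2 := hM.1 (Finset.mem_of_mem_erase hf)
    rw [Finset.mem_insert] at h2
    exact h2.resolve_left (Finset.ne_of_mem_erase hf)
  have h3 := le_nu h1
  have he : e ∈ M := by
    by_contra he
    rw [Finset.erase_eq_of_notMem he] at h3
    omega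
  have h4 := Finset.card_erase_of_mem he
  refine ⟨M.erase e, h1, by omega, fun f hf => ?_⟩
  exact hM.2 e he f (Finset.mem_of_mem_erase hf) (Finset.ne_of_mem_erase hf).symm

theorem del_sub (K : Finset (Finset α)) (v : α) : del K v ⊆ K := Finset.filter_subset _ _

theorem mem_del {K : Finset (Finset α)} {v : α} {e : Finset α} : e ∈ del K v ↔ e ∈ K ∧ v ∉ e := Finset.mem_filter

theorem card_del (K : Finset (Finset α)) (v : α) : deg K v + (del K v).card = K.card := by
  unfold deg del
  exact Finset.card_filter_add_card_filter_not _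

theorem nu_le_card (K : Finset (Finset α)) : nu K ≤ K.card := by
  obtain ⟨M, hM, hc⟩ := exists_max K
  rw [← hc]
  exact Finset.card_le_card hM.1

/-- A matching has at most one edge at a vertex. -/
theorem Mat.card_filter {K M : Finset (Finset α)} (h : Mat K M) (v : α) :
    M.card ≤ (M.filter (fun e => v ∉ e)).card + 1 := by
  have h1 : (M.filter (fun e => v ∈ e)).card ≤ 1 := by
    rw [Finset.card_le_one]
    intro a ha b hb
    rw [Finset.mem_filter] at ha hb
    by_contra hab
    exact Finset.disjoint_left.1 (h.2 a ha.1 b hb.1 hab) ha.2 hb.2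
  have h2 := Finset.card_filter_add_card_filter_not (s := M) (fun e => v ∈ e)
  omega

theorem nu_del (K : Finset (Finset α)) (v : α) : nu K ≤ nu (del K v) + 1 := by
  obtain ⟨M, hM, hc⟩ := exists_max K
  have h1 : Mat (del K v) (M.filter (fun e => v ∉ e)) := by
    refine ⟨fun e he => ?_, fun a ha b hb => hM.2 a (Finset.mem_filter.1 ha).1 b (Finset.mem_filter.1 hb).1⟩
    rw [Finset.mem_filter] at he
    exact mem_del.2 ⟨hM.1 he.1, he.2⟩
  have h2 := le_nu h1
  have h3 := hM.card_filter v
  omega

/-- Two vertices of a graph missed by a matching. -/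
theorem Mat.card_two {V : Finset α} {K M : Finset (Finset α)} (h : Mat K M) (hK : ∀ e ∈ K, e ⊆ V ∧ e.card = 2)
    {u v : α} (hu : u ∈ V) (hv : v ∈ V) (huv : u ≠ v) (hMu : ∀ e ∈ M, u ∉ e) (hMv : ∀ e ∈ M, v ∉ e) :
    2 * M.card + 2 ≤ V.card := by
  have h1 : (M.biUnion fun e => e).card = 2 * M.card := by
    rw [Finset.card_biUnion (fun a ha b hb hab => h.2 a ha b hb hab)]
    rw [Finset.sum_congr rfl (fun e he => (hK e (h.1 he)).2), Finset.sum_const, smul_eq_mul, mul_comm]
  have h2 : (M.biUnion fun e => e) ⊆ (V.erase u).erase v := by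
    intro x hx
    obtain ⟨e, he, hxe⟩ := Finset.mem_biUnion.1 hx
    refine Finset.mem_erase.2 ⟨?_, Finset.mem_erase.2 ⟨?_, (hK e (h.1 he)).1 hxe⟩⟩
    · rintro rfl
      exact hMv e he hxe
    · rintro rfl
      exact hMu e he hxe
  have h3 := Finset.card_le_card h2
  rw [h1, Finset.card_erase_of_mem (Finset.mem_erase.2 ⟨huv.symm, hv⟩), Finset.card_erase_of_mem hu] at h3
  have h4 : 0 < V.card := Finset.card_pos.2 ⟨u, hu⟩
  have h5 : 2 ≤ V.card := by
    have := Finset.card_le_card (Finset.insert_subset hu (Finset.singleton_subset_iff.2 hv))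
    rwa [Finset.card_pair huv] at this
  omega

end Pool.MP_38cb75_co.P2
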