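import Pool.Agent.Lib.MP_38cb75_co_P.Lower

/-!
# The value for tests of size at most two
-/

set_option autoImplicit false
set_option linter.unusedSectionVars false

namespace Pool.MP_38cb75_co.P2

open Pool.MP_38cb75_co.GT

variable {α : Type*} [DecidableEq α]

/-- The value. -/
def val (n d : ℕ) : ℕ := if n ≤ 3 * d then n - 1 else (n + 3 * d) / 2 - 1

theorem nu_empty : nu (∅ : Finset (Finset α)) = 0 := by
  have := nu_le_card (∅ : Finset (Finset α))
  rw [Finset.card_empty] at this
  omega

theorem hits_empty (D : Finset α) : Hits (∅ : Finset (Finset α)) D := fun e he => absurd he (Finset.notMem_empty e)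

theorem lower_val {s : ℕ} : ∀ {V : Finset α} {d : ℕ}, 0 < d → d < V.card →
    Sol s (fam V (∅ : Finset (Finset α)) d) → val V.card d ≤ s := by
  induction s with
  | zero =>
    intro V d hd hdn h
    exact absurd h (fam_not_subsingleton (Finset.empty_subset V) (hits_empty _) (by rw [Finset.card_empty]; exact hd) hdn)
  | succ s ih =>
    intro V d hd hdn h
    by_cases hn : V.card ≤ 3 * d + 3
    · have h0 : (∅ : Finset (Finset α)).card = 0 := Finset.card_empty
      have h1 : nu (∅ : Finset (Finset α)) = 0 := nu_empty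
      refine lower (s + 1) V ∅ d (val V.card d) (fun e he => absurd he (Finset.notMem_empty e))
        (fam_nonempty (Finset.empty_subset V) (hits_empty _) (by rw [Finset.card_empty]; omega) hdn.le) hdn ?_ h
      unfold Ok
      rw [h0, h1]
      unfold val
      split_ifs
      · omega
      · omega
    · obtain ⟨S, hS, -, hneg⟩ := h
      obtain ⟨P, hP1, hP2, hP3⟩ := Finset.exists_subsuperset_card_eq (s := S ∩ V) (t := V) (n := 2)
        Finset.inter_subset_right ((Finset.card_le_card Finset.inter_subset_left).trans hS) (by omega)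
      have hc : (V \ P).card = V.card - 2 := by
        rw [Finset.card_sdiff_of_subset hP2, hP3]
      have h1 : Sol s (fam (V \ P) (∅ : Finset (Finset α)) d) := by
        refine Sol.mono_set ?_ hneg
        intro D hD
        refine ⟨⟨hD.1.trans Finset.sdiff_subset, hD.2.1, hits_empty _⟩, ?_⟩
        rintro ⟨x, hx⟩
        rw [Finset.mem_inter] at hx
        have h2 := Finset.mem_sdiff.1 (hD.1 hx.2)
        exact h2.2 (hP1 (Finset.mem_inter.2 ⟨hx.1, h2.1⟩))
      have h2 := ih hd (by omega) h1
      rw [hc] at h2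
      unfold val at h2 ⊢
      rw [if_neg (by omega)] at h2 ⊢
      omega

theorem sol_zero (V : Finset α) (s : ℕ) : Sol s (fam V (∅ : Finset (Finset α)) 0) := by
  apply Sol.of_subsingleton
  intro D hD D' hD'
  rw [Finset.card_eq_zero.1 hD.2.1, Finset.card_eq_zero.1 hD'.2.1]

theorem sol_bad {V : Finset α} {b s : ℕ} {a : α} {F : Set (Finset α)}
    (hF : ∀ D ∈ F, D ∈ fam V (∅ : Finset (Finset α)) b ∧ a ∈ D)
    (h : Sol s (fam (V.erase a) (∅ : Finset (Finset α)) (b - 1))) : Sol s F := by
  refine Sol.lift {a} (Sol.mono_set ?_ h) fun D hD => Finset.singleton_subset_iff.2 (hF D hD).2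
  rintro _ ⟨D, hD, rfl⟩
  obtain ⟨h1, h2⟩ := hF D hD
  refine ⟨fun x hx => ?_, ?_, hits_empty _⟩
  · rw [Finset.mem_sdiff, Finset.mem_singleton] at hx
    exact Finset.mem_erase.2 ⟨hx.2, h1.1 hx.1⟩
  · rw [Finset.card_sdiff_of_subset (Finset.singleton_subset_iff.2 h2), h1.2.1, Finset.card_singleton]

theorem single_pos {a : α} {D : Finset α} : (({a} : Finset α) ∩ D).Nonempty ↔ a ∈ D := by
  constructor
  · rintro ⟨x, hx⟩
    rw [Finset.mem_inter, Finset.mem_singleton] at hx
    exact hx.1 ▸ hx.2
  · intro h
    exact ⟨a, by simp [h]⟩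

theorem sol_split {V : Finset α} {b s : ℕ} {a : α} (h1 : Sol s (fam (V.erase a) (∅ : Finset (Finset α)) (b - 1)))
    (h2 : Sol s (fam (V.erase a) (∅ : Finset (Finset α)) b)) : Sol (s + 1) (fam V (∅ : Finset (Finset α)) b) := by
  refine ⟨{a}, by simp, sol_bad (V := V) (b := b) (a := a) ?_ h1, Sol.mono_set ?_ h2⟩
  · rintro D ⟨hD, h⟩
    exact ⟨hD, single_pos.1 h⟩
  · rintro D ⟨hD, h⟩
    exact fam_erase.2 ⟨hD, fun ha => h (single_pos.2 ha)⟩

/-- Individual tests. -/
theorem sol_individual : ∀ (n : ℕ) (V : Finset α) (b : ℕ), V.card = n →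
    Sol (n - 1) (fam V (∅ : Finset (Finset α)) b) := by
  intro n
  induction n with
  | zero =>
    intro V b hV
    rw [Finset.card_eq_zero] at hV
    subst hV
    apply Sol.of_subsingleton
    intro D hD D' hD'
    rw [Finset.subset_empty.1 hD.1, Finset.subset_empty.1 hD'.1]
  | succ n ih =>
    intro V b hV
    obtain ⟨a, ha⟩ : V.Nonempty := Finset.card_pos.1 (by omega)
    rcases n with _ | n
    · obtain ⟨x, rfl⟩ := Finset.card_eq_one.1 hV
      apply Sol.of_subsingleton
      intro D hD D' hD'
      rcases Finset.subset_singleton_iff.1 hD.1 with rfl | rfl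
      · have h1 := hD'.2.1
        rw [← hD.2.1, Finset.card_empty, Finset.card_eq_zero] at h1
        exact h1.symm
      · rcases Finset.subset_singleton_iff.1 hD'.1 with rfl | rfl
        · have h1 := hD'.2.1
          rw [← hD.2.1, Finset.card_empty, Finset.card_singleton] at h1
          omega
        · rfl
    · have h1 : (V.erase a).card = n + 1 := by
        rw [Finset.card_erase_of_mem ha, hV]
        omega
      exact sol_split (a := a) (ih (V.erase a) (b - 1) h1) (ih (V.erase a) b h1)

/-- The strategy. -/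
theorem upper_val : ∀ (n : ℕ) (V : Finset α) (d : ℕ), V.card = n → 0 < d → d < n →
    Sol (val n d) (fam V (∅ : Finset (Finset α)) d) := by
  intro n
  induction n using Nat.strong_induction_on with
  | _ n ih =>
    intro V d hV hd hdn
    by_cases hn : n ≤ 3 * d
    · unfold val
      rw [if_pos hn]
      exact sol_individual n V d hV
    obtain ⟨x, hx⟩ : V.Nonempty := Finset.card_pos.1 (by omega)
    have hVx : (V.erase x).card = n - 1 := by rw [Finset.card_erase_of_mem hx, hV]
    obtain ⟨y, hy⟩ : (V.erase x).Nonempty := Finset.card_pos.1 (by omega)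
    have hVxy : ((V.erase x).erase y).card = n - 2 := by
      rw [Finset.card_erase_of_mem hy, hVx]
      omega
    have hv : val n d = (n + 3 * d) / 2 - 1 := by
      unfold val
      rw [if_neg hn]
    obtain ⟨r, hr⟩ : ∃ r, val n d = r + 1 + 1 := ⟨val n d - 2, by omega⟩
    rw [hr]
    have h1 : Sol (r + 1) (fam ((V.erase x).erase y) (∅ : Finset (Finset α)) d) := by
      refine Sol.mono (ih (n - 2) (by omega) _ d hVxy hd (by omega)) ?_
      unfold val
      split_ifs
      · omega
      · omega
    have h2 : Sol r (fam ((V.erase x).erase y) (∅ : Finset (Finset α)) (d - 1)) := by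
      by_cases hd1 : d = 1
      · rw [hd1]
        exact sol_zero _ _
      · refine Sol.mono (ih (n - 2) (by omega) _ (d - 1) hVxy (by omega) (by omega)) ?_
        unfold val
        split_ifs
        · omega
        · omega
    have h3 : Sol r (fam (V.erase x) (∅ : Finset (Finset α)) (d - 1)) := by
      by_cases hd1 : d = 1
      · rw [hd1]
        exact sol_zero _ _
      · refine Sol.mono (ih (n - 1) (by omega) _ (d - 1) hVx (by omega) (by omega)) ?_
        unfold val
        split_ifs
        · omega
        · omega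
    have key : ∀ D : Finset α, (({x, y} : Finset α) ∩ D).Nonempty ↔ (x ∈ D ∨ y ∈ D) := by
      intro D
      constructor
      · rintro ⟨z, hz⟩
        rw [Finset.mem_inter, Finset.mem_insert, Finset.mem_singleton] at hz
        rcases hz with ⟨rfl | rfl, hz⟩
        · exact Or.inl hz
        · exact Or.inr hz
      · rintro (h | h)
        · exact ⟨x, by simp [h]⟩
        · exact ⟨y, by simp [h]⟩
    refine ⟨{x, y}, Finset.card_le_two, ⟨{x}, by simp, ?_, ?_⟩, ?_⟩
    · refine sol_bad (V := V) (b := d) (a := x) ?_ h3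
      rintro D ⟨⟨hD, -⟩, h⟩
      exact ⟨hD, single_pos.1 h⟩
    · refine sol_bad (V := V.erase x) (b := d) (a := y) ?_ h2
      rintro D ⟨⟨hD, hxy⟩, h⟩
      have hxD : x ∉ D := fun hx => h (single_pos.2 hx)
      exact ⟨fam_erase.2 ⟨hD, hxD⟩, ((key D).1 hxy).resolve_left hxD⟩
    · refine Sol.mono_set ?_ h1
      rintro D ⟨hD, hxy⟩
      rw [key D] at hxy
      push Not at hxy
      exact fam_erase.2 ⟨fam_erase.2 ⟨hD, hxy.1⟩, hxy.2⟩

end Pool.MP_38cb75_co.P2
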